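import Mathlib
import Pool.Agent.Helper38.SG.Iter
import Pool.Agent.Helper38.SG.GNorm
import Pool.Agent.Helper38.SG.Haar

/-! # Sobolev gap, piece FIN: the main estimate -/

open Filter Topology Set MeasureTheory
open scoped RealInnerProductSpace ContDiff

universe u

namespace Pool.Agent.Helper71.SG

open Pool.Agent.Helper38.SG

variable {G 𝔤 : Type u} [Group G] [TopologicalSpace G] [IsTopologicalGroup G] [T2Space G]
  [NormedAddCommGroup 𝔤] [InnerProductSpace ℝ 𝔤] [FiniteDimensional ℝ 𝔤] {P : ParData G 𝔤}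
  {U : Type u} [NormedAddCommGroup U] [InnerProductSpace ℂ U] [FiniteDimensional ℂ U]

omit [FiniteDimensional ℂ U] in
theorem norm_pair_le [MeasurableSpace P.K] [BorelSpace P.K] (μ : Measure P.K)
    [IsProbabilityMeasure μ] {R : RepData P U} (h f : V R) :
    ‖pair μ (h : G → U) (f : G → U)‖ ≤ sn h * sn f := by
  have h1 : ∀ k : P.K, ‖inner ℂ ((h : G → U) k) ((f : G → U) k)‖ ≤ sn h * sn f := by
    intro k
    refine (norm_inner_le_norm _ _).trans ?_
    exact mul_le_mul (le_sn h k.2) (le_sn f k.2) (norm_nonneg _) (sn_nonneg h)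
  have h2 := norm_integral_le_of_norm_le_const (μ := μ) (Filter.Eventually.of_forall h1)
  simpa [pair] using h2

/-- FIN-A: `p(P_u w) ≤ C max(1, u^{-c}) q(w)` -/
theorem heat_bound {R : RepData P U} {p q : V R → ℝ} (hp : IsGNorm R p) (hq : IsGNorm R q) :
    ∃ C : ℝ, 0 ≤ C ∧ ∀ (w : V R) (u : ℝ), 0 < u →
      p (Pu R u w) ≤ C * (1 + u ^ (-P.c)) * q w := by
  let _ : MeasurableSpace P.K := borel P.K
  have _ : BorelSpace P.K := ⟨rfl⟩
  obtain ⟨μ, i1, i2, i3, i4, i5⟩ := exists_haar P.K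
  have hqg : GoodNorm μ R q := hq.good μ
  have hpg : GoodNorm μ R p := hp.good μ
  obtain ⟨p', hp', hpair, C₂, hC₂, hdual⟩ := hp.dual μ
  obtain ⟨C₁, hC₁, h1⟩ := iteration μ R q hqg.nonneg hqg.coef hqg.heat
  obtain ⟨C₃, hC₃, h3⟩ := iteration μ R p' hp'.nonneg hp'.coef hp'.heat
  obtain ⟨C₄, h4⟩ := hpg.heat
  set A : ℝ := C₃ * C₂ * C₁ * (2 : ℝ) ^ P.c with hA
  have hA0 : 0 ≤ A := by positivity
  have key : ∀ (w : V R) (u : ℝ), 0 < u → u ≤ 1 → p (Pu R u w) ≤ A * u ^ (-P.c) * q w := by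
    intro w u hu hu1
    refine le_of_forall_pos_le_add fun ε hε => ?_
    obtain ⟨h, hh, hh2⟩ := hdual (Pu R u w) ε hε
    refine hh2.trans (add_le_add ?_ le_rfl)
    have e1 : Pu R u w = Pu R (u / 2) (Pu R (u / 2) w) := by
      rw [← Pu_add, add_halves]
    have e2 : pair μ (h : G → U) (Pu R u w : G → U)
        = pair μ (Pu R (u / 2) h : G → U) (Pu R (u / 2) w : G → U) := by
      rw [e1]
      exact (pair_fc μ R _ h (Pu R (u / 2) w)).symm
    rw [e2]
    have hu2 : 0 < u / 2 := by positivity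
    have b1 := h1 w (u / 2) hu2 (by linarith)
    have b3 := h3 h (u / 2) hu2 (by linarith)
    have b3' : sn (Pu R (u / 2) h) ≤ C₃ * (u / 2) ^ (-(P.c / 2)) * C₂ :=
      b3.trans (mul_le_mul_of_nonneg_left hh (by positivity))
    have hqw := hqg.nonneg w
    calc ‖pair μ (Pu R (u / 2) h : G → U) (Pu R (u / 2) w : G → U)‖
        ≤ sn (Pu R (u / 2) h) * sn (Pu R (u / 2) w) := norm_pair_le μ _ _
      _ ≤ (C₃ * (u / 2) ^ (-(P.c / 2)) * C₂) * (C₁ * (u / 2) ^ (-(P.c / 2)) * q w) :=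
          mul_le_mul b3' b1 (sn_nonneg _) (by positivity)
      _ = C₃ * C₂ * C₁ * ((u / 2) ^ (-(P.c / 2)) * (u / 2) ^ (-(P.c / 2))) * q w := by ring
      _ = C₃ * C₂ * C₁ * ((2 : ℝ) ^ P.c * u ^ (-P.c)) * q w := by
          congr 2
          rw [← Real.rpow_add hu2, div_eq_mul_inv, Real.mul_rpow hu.le (by norm_num),
            Real.inv_rpow (by norm_num), ← Real.rpow_neg (by norm_num)]
          ring_nf
      _ = A * u ^ (-P.c) * q w := by rw [hA]; ring
  refine ⟨A + |C₄| * A, by positivity, fun w u hu => ?_⟩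
  have hqw := hqg.nonneg w
  have hup : 0 ≤ u ^ (-P.c) := Real.rpow_nonneg hu.le _
  rcases le_or_gt u 1 with hu1 | hu1
  · calc p (Pu R u w) ≤ A * u ^ (-P.c) * q w := key w u hu hu1
      _ ≤ (A + |C₄| * A) * (1 + u ^ (-P.c)) * q w := by
          gcongr
          · have : 0 ≤ |C₄| * A := by positivity
            linarith
          · linarith
  · have e1 : Pu R u w = Pu R (u - 1) (Pu R 1 w) := by
      rw [← Pu_add, sub_add_cancel]
    have b := key w 1 one_pos le_rfl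
    rw [Real.one_rpow, mul_one] at b
    calc p (Pu R u w) ≤ C₄ * p (Pu R 1 w) := by rw [e1]; exact h4 _ (by linarith) _
      _ ≤ |C₄| * p (Pu R 1 w) :=
          mul_le_mul_of_nonneg_right (le_abs_self _) (hpg.nonneg _)
      _ ≤ |C₄| * (A * q w) := mul_le_mul_of_nonneg_left b (abs_nonneg _)
      _ = (|C₄| * A) * 1 * q w := by ring
      _ ≤ (A + |C₄| * A) * (1 + u ^ (-P.c)) * q w := by
          gcongr
          · linarith
          · linarith

theorem integrableOn_aux {a r : ℝ} (ha : 0 < a) (hr : 0 < r) :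
    IntegrableOn (fun t : ℝ => t ^ (a - 1) * Real.exp (-(r * t))) (Ioi 0) := by
  by_contra h
  have h1 := Real.integral_rpow_mul_exp_neg_mul_Ioi ha hr
  rw [integral_undef h] at h1
  have h2 : 0 < (1 / r) ^ a * Real.Gamma a :=
    mul_pos (Real.rpow_pos_of_pos (by positivity) _) (Real.Gamma_pos_of_pos ha)
  exact h2.ne h1

/-- FIN-B: integration over `u` -/
theorem main_estimate {R : RepData P U} {p q : V R → ℝ} (hp : IsGNorm R p) (hq : IsGNorm R q)
    {s : ℝ} (hs : 2 * P.c < s) :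
    ∃ C : ℝ, ∀ f, p f ≤ C * q (fc R (fun μ => (1 + μ) ^ (s / 2)) f) := by
  have hc : 0 ≤ P.c := P.c_nonneg P.br_self P.jacobi
  obtain ⟨C, hC, hb⟩ := heat_bound hp hq
  obtain ⟨E, i1, i2, i3, π, j, -, -, hj, -⟩ := hp
  have hs2 : 0 < s / 2 := by linarith
  have hsc : 0 < s / 2 - P.c := by linarith
  refine ⟨(Real.Gamma (s / 2))⁻¹ * (C * (Real.Gamma (s / 2) + Real.Gamma (s / 2 - P.c))),
    fun f => ?_⟩
  set w : V R := fc R (fun μ => (1 + μ) ^ (s / 2)) f with hw
  obtain ⟨S, g, hS0, hS1, hf⟩ := casV_decomp f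
  -- expansion of the vector
  have hjw : ∀ u : ℝ, j (Pu R u w) =
      ∑ μ ∈ S, (Real.exp (-(u * μ)) * (1 + μ) ^ (s / 2) : ℝ) • j (g μ) := by
    intro u
    rw [hw, hf, map_sum, map_sum, map_sum]
    refine Finset.sum_congr rfl fun μ hμ => ?_
    rw [fc_apply R _ (hS1 μ hμ), map_smul, Pu_apply R u (hS1 μ hμ), smul_smul, map_smul,
      ← Complex.ofReal_mul, Complex.coe_smul, mul_comm]
  have hint : ∀ μ ∈ S, IntegrableOn
      (fun u : ℝ => u ^ (s / 2 - 1) * Real.exp (-((1 + μ) * u))) (Ioi 0) := fun μ hμ =>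
    integrableOn_aux hs2 (by have := hS0 μ hμ; linarith)
  have hΦ : ∀ u : ℝ, (u ^ (s / 2 - 1) * Real.exp (-u)) • j (Pu R u w) =
      ∑ μ ∈ S, (u ^ (s / 2 - 1) * Real.exp (-((1 + μ) * u))) •
        ((1 + μ) ^ (s / 2) : ℝ) • j (g μ) := by
    intro u
    rw [hjw, Finset.smul_sum]
    refine Finset.sum_congr rfl fun μ _ => ?_
    rw [smul_smul, smul_smul]
    congr 1
    have : Real.exp (-((1 + μ) * u)) = Real.exp (-u) * Real.exp (-(u * μ)) := by
      rw [← Real.exp_add]; ring_nf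
    rw [this]; ring
  have hI : ∫ u in Ioi (0 : ℝ), (u ^ (s / 2 - 1) * Real.exp (-u)) • j (Pu R u w) =
      Real.Gamma (s / 2) • j f := by
    simp only [hΦ]
    rw [integral_finsetSum _ fun μ hμ => (hint μ hμ).smul_const _]
    rw [hf, map_sum, Finset.smul_sum]
    refine Finset.sum_congr rfl fun μ hμ => ?_
    have hμ1 : 0 < 1 + μ := by have := hS0 μ hμ; linarith
    rw [integral_smul_const, Real.integral_rpow_mul_exp_neg_mul_Ioi hs2 hμ1, smul_smul]
    congr 1
    rw [one_div, Real.inv_rpow hμ1.le]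
    have : (1 + μ) ^ (s / 2) ≠ 0 := (Real.rpow_pos_of_pos hμ1 _).ne'
    field_simp
  have hbound : Integrable (fun u : ℝ => C * q w * (u ^ (s / 2 - 1) * Real.exp (-(1 * u)) +
      u ^ (s / 2 - P.c - 1) * Real.exp (-(1 * u)))) (volume.restrict (Ioi 0)) :=
    ((integrableOn_aux hs2 one_pos).add (integrableOn_aux hsc one_pos)).const_mul _
  have hle : ‖∫ u in Ioi (0 : ℝ), (u ^ (s / 2 - 1) * Real.exp (-u)) • j (Pu R u w)‖ ≤
      ∫ u in Ioi (0 : ℝ), C * q w * (u ^ (s / 2 - 1) * Real.exp (-(1 * u)) +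
      u ^ (s / 2 - P.c - 1) * Real.exp (-(1 * u))) := by
    refine norm_integral_le_of_norm_le hbound ?_
    refine (ae_restrict_iff' measurableSet_Ioi).2 (Filter.Eventually.of_forall fun u hu => ?_)
    have hu : 0 < u := hu
    have h0 : 0 ≤ u ^ (s / 2 - 1) * Real.exp (-u) := by positivity
    rw [norm_smul, Real.norm_of_nonneg h0, hj]
    calc u ^ (s / 2 - 1) * Real.exp (-u) * p (Pu R u w)
        ≤ u ^ (s / 2 - 1) * Real.exp (-u) * (C * (1 + u ^ (-P.c)) * q w) :=
          mul_le_mul_of_nonneg_left (hb w u hu) h0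
      _ = C * q w * (u ^ (s / 2 - 1) * Real.exp (-(1 * u)) +
            u ^ (s / 2 - P.c - 1) * Real.exp (-(1 * u))) := by
          have : u ^ (s / 2 - P.c - 1) = u ^ (s / 2 - 1) * u ^ (-P.c) := by
            rw [← Real.rpow_add hu]; ring_nf
          rw [this, one_mul]; ring
  rw [hI, integral_const_mul, integral_add (integrableOn_aux hs2 one_pos)
    (integrableOn_aux hsc one_pos), Real.integral_rpow_mul_exp_neg_mul_Ioi hs2 one_pos,
    Real.integral_rpow_mul_exp_neg_mul_Ioi hsc one_pos, norm_smul, hj] at hle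
  have hG : 0 < Real.Gamma (s / 2) := Real.Gamma_pos_of_pos hs2
  rw [Real.norm_of_nonneg hG.le] at hle
  simp only [div_one, Real.one_rpow, one_mul] at hle
  calc p f = (Real.Gamma (s / 2))⁻¹ * (Real.Gamma (s / 2) * p f) := by
        field_simp
    _ ≤ (Real.Gamma (s / 2))⁻¹ * (C * q w * (Real.Gamma (s / 2) + Real.Gamma (s / 2 - P.c))) :=
        mul_le_mul_of_nonneg_left hle (by positivity)
    _ = _ := by ring

end Pool.Agent.Helper71.SG
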